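import Mathlib

set_option autoImplicit false

/-! Bit masks: arithmetic progressions, primes below a bound, counting of bits. All functions are built from
the binary operations on natural numbers which the kernel evaluates quickly. -/

namespace Q260.GS

/-- the bits `d * j`, `j < m` -/
def rep (d m : ℕ) : ℕ := Nat.div (Nat.sub (Nat.pow 2 (Nat.mul d m)) 1) (Nat.sub (Nat.pow 2 d) 1)

theorem rep_eq (d m : ℕ) (hd : 1 ≤ d) : rep d m = ∑ j ∈ Finset.range m, (2 ^ d) ^ j := by
  have h2 : 2 ≤ 2 ^ d := by
    calc 2 = 2 ^ 1 := by norm_num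
      _ ≤ 2 ^ d := Nat.pow_le_pow_right (by norm_num) hd
  have h := Nat.geomSum_eq h2 m
  rw [h]
  show (2 ^ (d * m) - 1) / (2 ^ d - 1) = _
  rw [pow_mul]

theorem rep_lt (d m : ℕ) (hd : 1 ≤ d) : rep d m < 2 ^ (d * m) ∨ m = 0 := by
  rcases Nat.eq_zero_or_pos m with h | h
  · exact Or.inr h
  left
  have h1 : 1 ≤ 2 ^ d - 1 := by
    have : 2 ≤ 2 ^ d := by
      calc 2 = 2 ^ 1 := by norm_num
        _ ≤ 2 ^ d := Nat.pow_le_pow_right (by norm_num) hd
    omega
  have h2 : 0 < 2 ^ (d * m) := by positivity
  calc rep d m = (2 ^ (d * m) - 1) / (2 ^ d - 1) := rfl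
    _ ≤ 2 ^ (d * m) - 1 := Nat.div_le_self _ _
    _ < 2 ^ (d * m) := by omega

theorem rep_testBit (d m : ℕ) (hd : 1 ≤ d) (i : ℕ) :
    (rep d m).testBit i = decide (d ∣ i ∧ i < d * m) := by
  induction m with
  | zero =>
    rw [rep_eq d 0 hd]
    simp
  | succ m ih =>
    have e : rep d (m + 1) = 2 ^ (d * m) + rep d m := by
      rw [rep_eq d (m + 1) hd, rep_eq d m hd, Finset.sum_range_succ, pow_mul]
      ring
    have hlt : rep d m < 2 ^ (d * m) := by
      rcases rep_lt d m hd with h | h
      · exact h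
      · subst h
        rw [rep_eq d 0 hd]
        simp
    rw [e]
    rcases lt_trichotomy i (d * m) with h | h | h
    · rw [Nat.testBit_two_pow_add_gt h, ih]
      congr 1
      apply propext
      constructor
      · rintro ⟨h1, -⟩
        exact ⟨h1, by rw [Nat.mul_succ]; omega⟩
      · rintro ⟨h1, -⟩
        exact ⟨h1, h⟩
    · subst h
      rw [Nat.testBit_two_pow_add_eq, Nat.testBit_lt_two_pow hlt]
      have h8 : d * m < d * (m + 1) := by rw [Nat.mul_succ]; omega
      simp [h8]
    · have h3 : 2 ^ (d * m) + rep d m < 2 ^ i := by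
        calc 2 ^ (d * m) + rep d m < 2 ^ (d * m) + 2 ^ (d * m) := by omega
          _ = 2 ^ (d * m + 1) := by rw [pow_succ]; ring
          _ ≤ 2 ^ i := Nat.pow_le_pow_right (by norm_num) h
      rw [Nat.testBit_lt_two_pow h3]
      symm
      rw [decide_eq_false_iff_not]
      rintro ⟨⟨t, rfl⟩, h5⟩
      have h6 : m < t := Nat.lt_of_mul_lt_mul_left h
      have h7 : t < m + 1 := Nat.lt_of_mul_lt_mul_left h5
      omega

/-- bits of `x` which are not in `y` -/
def andNot (x y : ℕ) : ℕ := Nat.xor x (Nat.land x y)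

theorem andNot_testBit (x y i : ℕ) : (andNot x y).testBit i = (x.testBit i && !y.testBit i) := by
  show (x ^^^ (x &&& y)).testBit i = _
  rw [Nat.testBit_xor, Nat.testBit_and]
  cases x.testBit i <;> cases y.testBit i <;> rfl

/-- number of set bits, counted in `w` residue classes -/
def cnt (w R x : ℕ) : ℕ :=
  (List.range w).foldr (fun j r => Nat.add (Nat.mod (Nat.land (Nat.shiftRight x j) R) (Nat.sub (Nat.pow 2 w) 1)) r) 0

theorem and_rep_mod (w m x : ℕ) (hw : 1 ≤ w) :
    (x &&& rep w m) ≡ ∑ i ∈ Finset.range m, (x.testBit (w * i)).toNat [MOD (2 ^ w - 1)] := by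
  induction m with
  | zero =>
    rw [rep_eq w 0 hw]
    simp
    rfl
  | succ m ih =>
    have e : x &&& rep w (m + 1) = (x &&& rep w m) + (x.testBit (w * m)).toNat * 2 ^ (w * m) := by
      have hlt : (x &&& rep w m) < 2 ^ (w * m) := by
        rcases rep_lt w m hw with h | h
        · exact lt_of_le_of_lt Nat.and_le_right h
        · subst h
          rw [rep_eq w 0 hw]
          simp
      apply Nat.eq_of_testBit_eq
      intro i
      rw [Nat.testBit_and, rep_testBit w (m + 1) hw]
      cases hb : x.testBit (w * m)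
      · simp only [Bool.toNat_false, zero_mul, add_zero]
        rw [Nat.testBit_and, rep_testBit w m hw]
        by_cases hi : i = w * m
        · subst hi
          rw [hb]
          simp
        · congr 1
          congr 1
          apply propext
          constructor
          · rintro ⟨⟨t, rfl⟩, h2⟩
            refine ⟨⟨t, rfl⟩, ?_⟩
            have h3 : t < m + 1 := Nat.lt_of_mul_lt_mul_left h2
            have h4 : t ≠ m := fun h => hi (by rw [h])
            exact Nat.mul_lt_mul_of_pos_left (by omega) (by omega)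
          · rintro ⟨h1, h2⟩
            refine ⟨h1, ?_⟩
            rw [Nat.mul_succ]
            omega
      · simp only [Bool.toNat_true, one_mul]
        rw [add_comm (x &&& rep w m)]
        rcases lt_trichotomy i (w * m) with h | h | h
        · rw [Nat.testBit_two_pow_add_gt h, Nat.testBit_and, rep_testBit w m hw]
          congr 1
          congr 1
          apply propext
          constructor
          · rintro ⟨h1, -⟩
            exact ⟨h1, h⟩
          · rintro ⟨h1, -⟩
            exact ⟨h1, by rw [Nat.mul_succ]; omega⟩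
        · subst h
          rw [Nat.testBit_two_pow_add_eq, Nat.testBit_lt_two_pow hlt, hb]
          have h8 : w * m < w * (m + 1) := by rw [Nat.mul_succ]; omega
          simp [h8]
        · have h3 : 2 ^ (w * m) + (x &&& rep w m) < 2 ^ i := by
            calc 2 ^ (w * m) + (x &&& rep w m) < 2 ^ (w * m) + 2 ^ (w * m) := by omega
              _ = 2 ^ (w * m + 1) := by rw [pow_succ]; ring
              _ ≤ 2 ^ i := Nat.pow_le_pow_right (by norm_num) h
          rw [Nat.testBit_lt_two_pow h3]
          rw [Bool.and_eq_false_iff]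
          right
          rw [decide_eq_false_iff_not]
          rintro ⟨⟨t, rfl⟩, h5⟩
          have h6 : m < t := Nat.lt_of_mul_lt_mul_left h
          have h7 : t < m + 1 := Nat.lt_of_mul_lt_mul_left h5
          omega
    rw [e, Finset.sum_range_succ]
    apply Nat.ModEq.add ih
    have h1 : 2 ^ (w * m) ≡ 1 [MOD (2 ^ w - 1)] := by
      rw [pow_mul]
      have h2 : 2 ^ w ≡ 1 [MOD (2 ^ w - 1)] := by
        have h3 : 1 ≤ 2 ^ w := Nat.one_le_two_pow
        have h4 : 2 ^ w = (2 ^ w - 1) + 1 := by omega
        conv_lhs => rw [h4]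
        exact Nat.add_modEq_left
      calc (2 ^ w) ^ m ≡ 1 ^ m [MOD (2 ^ w - 1)] := h2.pow m
        _ = 1 := one_pow m
    calc (x.testBit (w * m)).toNat * 2 ^ (w * m)
        ≡ (x.testBit (w * m)).toNat * 1 [MOD (2 ^ w - 1)] := Nat.ModEq.mul_left _ h1
      _ = (x.testBit (w * m)).toNat := mul_one _

theorem and_rep_mod_eq (w m x : ℕ) (hw : 1 ≤ w) (hm : m < 2 ^ w - 1) :
    (x &&& rep w m) % (2 ^ w - 1) = ∑ i ∈ Finset.range m, (x.testBit (w * i)).toNat := by
  have h1 := and_rep_mod w m x hw
  have h2 : ∑ i ∈ Finset.range m, (x.testBit (w * i)).toNat < 2 ^ w - 1 := by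
    refine lt_of_le_of_lt ?_ hm
    calc ∑ i ∈ Finset.range m, (x.testBit (w * i)).toNat ≤ ∑ _i ∈ Finset.range m, 1 :=
          Finset.sum_le_sum fun i _ => Bool.toNat_le _
      _ = m := by simp
  unfold Nat.ModEq at h1
  rw [h1, Nat.mod_eq_of_lt h2]

theorem foldr_range_sum (w : ℕ) (f : ℕ → ℕ) :
    (List.range w).foldr (fun j r => f j + r) 0 = ∑ j ∈ Finset.range w, f j := by
  have h : ∀ (l : List ℕ), l.foldr (fun j r => f j + r) 0 = (l.map f).sum := by
    intro l
    induction l with
    | nil => rfl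
    | cons a l ih => simp [ih]
  rw [h]
  rfl

theorem cnt_eq (w m x : ℕ) (hw : 1 ≤ w) (hm : m < 2 ^ w - 1) :
    cnt w (rep w m) x = ((Finset.range (w * m)).filter (fun i => x.testBit i = true)).card := by
  have h1 : cnt w (rep w m) x = ∑ j ∈ Finset.range w, ((x >>> j) &&& rep w m) % (2 ^ w - 1) :=
    foldr_range_sum w (fun j => ((x >>> j) &&& rep w m) % (2 ^ w - 1))
  rw [h1]
  have h2 : ∀ j ∈ Finset.range w, ((x >>> j) &&& rep w m) % (2 ^ w - 1) =
      ∑ i ∈ Finset.range m, (x.testBit (w * i + j)).toNat := by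
    intro j _
    rw [and_rep_mod_eq w m _ hw hm]
    apply Finset.sum_congr rfl
    intro i _
    rw [Nat.testBit_shiftRight, add_comm]
  rw [Finset.sum_congr rfl h2, Finset.card_filter, Finset.sum_comm]
  have h3 : ∀ i, (if x.testBit i = true then 1 else 0) = (x.testBit i).toNat := by
    intro i
    cases x.testBit i <;> rfl
  simp only [h3]
  have h4 : ∀ m : ℕ, ∑ i ∈ Finset.range m, ∑ j ∈ Finset.range w, (x.testBit (w * i + j)).toNat =
      ∑ i ∈ Finset.range (w * m), (x.testBit i).toNat := by
    intro m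
    induction m with
    | zero => simp
    | succ m ih =>
      rw [Finset.sum_range_succ, ih, Nat.mul_succ, Finset.sum_range_add]
  exact h4 m

end Q260.GS
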