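import Mathlib
import Pool.Agent.Q260.GS.Bits

set_option autoImplicit false

/-! The bit mask of the primes up to `B`, by the sieve of Eratosthenes. -/

namespace Q260.GS

/-- the product of the primes up to 43 -/
def prim43 : ℕ := 13082761331670030

/-- all primes below `s`, and perhaps some other numbers -/
def divs (s : ℕ) : List ℕ :=
  (List.range s).filter (fun q => Nat.ble 2 q && (Nat.beq (Nat.gcd q prim43) 1 || Nat.ble q 43))

theorem mem_divs_ge {s q : ℕ} (h : q ∈ divs s) : 2 ≤ q := by
  unfold divs at h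
  rw [List.mem_filter, Bool.and_eq_true] at h
  exact Nat.le_of_ble_eq_true h.2.1

theorem mem_divs_of_prime {s q : ℕ} (hq : q.Prime) (hs : q < s) : q ∈ divs s := by
  unfold divs
  rw [List.mem_filter, Bool.and_eq_true, Bool.or_eq_true]
  refine ⟨List.mem_range.2 hs, Nat.ble_eq_true_of_le hq.two_le, ?_⟩
  by_cases h : q ≤ 43
  · exact Or.inr (Nat.ble_eq_true_of_le h)
  · left
    have h1 : Nat.Coprime q prim43 := by
      rw [hq.coprime_iff_not_dvd]
      intro h2
      have h3 : prim43 = 2 * 3 * 5 * 7 * 11 * 13 * 17 * 19 * 23 * 29 * 31 * 37 * 41 * 43 := by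
        norm_num [prim43]
      rw [h3] at h2
      simp only [hq.dvd_mul] at h2
      have key : ∀ r : ℕ, 0 < r → r ≤ 43 → q ∣ r → False := fun r hr0 hr h4 => by
        have := Nat.le_of_dvd hr0 h4
        omega
      rcases h2 with ((((((((((((h | h) | h) | h) | h) | h) | h) | h) | h) | h) | h) | h) | h) | h
      all_goals exact key _ (by norm_num) (by norm_num) h
    rw [Nat.beq_eq]; exact h1

/-- the bits of the composite numbers up to `B` (and of some numbers above `B`) -/
def comp (B s : ℕ) : ℕ :=
  (divs s).foldr (fun p r => Nat.lor (Nat.shiftLeft (rep p (Nat.div B p)) (Nat.mul p p)) r) 0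

theorem foldr_lor_testBit (f : ℕ → ℕ) (l : List ℕ) (i : ℕ) :
    (l.foldr (fun p r => f p ||| r) 0).testBit i = true ↔ ∃ p ∈ l, (f p).testBit i = true := by
  induction l with
  | nil => simp
  | cons a l ih => simp [Nat.testBit_or, ih]

theorem comp_testBit {B s : ℕ} (hs : B < s * s) {i : ℕ} (hi : i ≤ B) :
    (comp B s).testBit i = true ↔ 2 ≤ i ∧ ¬ i.Prime := by
  have h1 : (comp B s).testBit i = true ↔
      ∃ p ∈ divs s, ((rep p (B / p)) <<< (p * p)).testBit i = true :=
    foldr_lor_testBit (fun p => (rep p (B / p)) <<< (p * p)) (divs s) i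
  rw [h1]
  constructor
  · rintro ⟨p, hp, h⟩
    have hp2 := mem_divs_ge hp
    rw [Nat.testBit_shiftLeft, Bool.and_eq_true, rep_testBit p _ (by omega)] at h
    simp only [decide_eq_true_eq] at h
    obtain ⟨h2, h3, -⟩ := h
    have h4 : p ∣ i := by
      have : i = (i - p * p) + p * p := by omega
      rw [this]
      exact Dvd.dvd.add h3 (Dvd.intro _ rfl)
    have h5 : 2 * 2 ≤ p * p := Nat.mul_le_mul hp2 hp2
    refine ⟨by omega, fun hpr => ?_⟩
    rcases (Nat.dvd_prime hpr).1 h4 with h6 | h6
    · omega
    · subst h6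
      nlinarith
  · rintro ⟨h2, h3⟩
    have h4 : (Nat.minFac i).Prime := Nat.minFac_prime (by omega)
    have h5 : Nat.minFac i ^ 2 ≤ i := Nat.minFac_sq_le_self (by omega) h3
    rw [sq] at h5
    have h6 : Nat.minFac i < s := by
      by_contra h7
      push Not at h7
      have := Nat.mul_le_mul h7 h7
      omega
    refine ⟨Nat.minFac i, mem_divs_of_prime h4 h6, ?_⟩
    rw [Nat.testBit_shiftLeft, Bool.and_eq_true, rep_testBit _ _ h4.pos]
    simp only [decide_eq_true_eq]
    refine ⟨h5, (Nat.dvd_sub (Nat.minFac_dvd i) (Dvd.intro _ rfl)), ?_⟩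
    have h8 : i - Nat.minFac i * Nat.minFac i < i := by
      have := Nat.mul_pos h4.pos h4.pos
      omega
    obtain ⟨t, ht⟩ := Nat.minFac_dvd i
    have h9 : Nat.minFac i * t ≤ Nat.minFac i * (B / Nat.minFac i) := by
      apply Nat.mul_le_mul_left
      rw [Nat.le_div_iff_mul_le h4.pos]
      calc t * Nat.minFac i = Nat.minFac i * t := mul_comm _ _
        _ = i := ht.symm
        _ ≤ B := hi
    omega

/-- the bits of the primes up to `B` -/
def pm (B s : ℕ) : ℕ :=
  Nat.xor (andNot (Nat.sub (Nat.pow 2 (Nat.succ B)) 1) (comp B s)) 3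

theorem pm_testBit {B s : ℕ} (hs : B < s * s) (hB : 2 ≤ B) (i : ℕ) :
    (pm B s).testBit i = true ↔ i ≤ B ∧ i.Prime := by
  have e : pm B s = (andNot (2 ^ (B + 1) - 1) (comp B s)) ^^^ 3 := rfl
  have h3 : (3 : ℕ).testBit i = decide (i < 2) := by
    have : (3 : ℕ) = 2 ^ 2 - 1 := by norm_num
    rw [this, Nat.testBit_two_pow_sub_one]
  rw [e, Nat.testBit_xor, andNot_testBit, Nat.testBit_two_pow_sub_one, h3]
  by_cases hi : i ≤ B
  · have h1 := comp_testBit hs hi
    have h2 : decide (i < B + 1) = true := by
      rw [decide_eq_true_eq]; omega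
    rw [h2, Bool.true_and]
    by_cases h4 : i < 2
    · have h5 : (comp B s).testBit i = false := by
        rw [← Bool.not_eq_true, h1]
        omega
      rw [h5]
      have h6 : ¬ i.Prime := fun h => by
        have := h.two_le
        omega
      simp [h4, h6]
    · by_cases h5 : i.Prime
      · have h6 : (comp B s).testBit i = false := by
          rw [← Bool.not_eq_true, h1]
          tauto
        rw [h6]
        simp [h4, h5, hi]
      · have h6 : (comp B s).testBit i = true := by
          rw [h1]
          exact ⟨by omega, h5⟩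
        rw [h6]
        simp [h4, h5]
  · have h2 : decide (i < B + 1) = false := by
      rw [decide_eq_false_iff_not]; omega
    have h4 : decide (i < 2) = false := by
      rw [decide_eq_false_iff_not]; omega
    rw [h2, h4]
    simp [hi]

end Q260.GS
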