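import Mathlib
import Pool.Agent.Q260.GS.Sieve

set_option autoImplicit false

/-! Comparison of consecutive prime gaps by bit masks. -/

namespace Q260.GS

/-- bits `i` such that one of `i + 1, ..., i + h` is a bit of `P` -/
def near (P : ℕ) (h : ℕ) : ℕ := Nat.rec 0 (fun h r => Nat.lor r (Nat.shiftRight P (Nat.succ h))) h

theorem near_testBit (P h i : ℕ) :
    (near P h).testBit i = true ↔ ∃ j, 1 ≤ j ∧ j ≤ h ∧ P.testBit (i + j) = true := by
  induction h with
  | zero =>
    have e : near P 0 = 0 := rfl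
    rw [e]
    constructor
    · intro h1
      simp at h1
    · rintro ⟨j, h1, h2, -⟩
      omega
  | succ h ih =>
    have e : near P (h + 1) = near P h ||| (P >>> (h + 1)) := rfl
    rw [e, Nat.testBit_or, Bool.or_eq_true, ih, Nat.testBit_shiftRight, add_comm (h + 1) i]
    constructor
    · rintro (⟨j, h1, h2, h3⟩ | h1)
      · exact ⟨j, h1, by omega, h3⟩
      · exact ⟨h + 1, by omega, le_rfl, h1⟩
    · rintro ⟨j, h1, h2, h3⟩
      rcases Nat.lt_or_ge h j with h4 | h4
      · obtain rfl : j = h + 1 := by omega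
        exact Or.inr h3
      · exact Or.inl ⟨j, h1, h4, h3⟩

/-- bits `i` of `P` whose predecessor in `P` is `i - (h + 1)` -/
def pre (P : ℕ) (h : ℕ) : ℕ :=
  Nat.shiftLeft (andNot (Nat.land P (Nat.shiftRight P (Nat.succ h))) (near P h)) (Nat.succ h)

theorem pre_testBit (P h i : ℕ) :
    (pre P h).testBit i = true ↔ h + 1 ≤ i ∧ P.testBit (i - (h + 1)) = true ∧ P.testBit i = true ∧
      ∀ j, i - (h + 1) < j → j < i → P.testBit j = false := by
  have e : pre P h = (andNot (P &&& (P >>> (h + 1))) (near P h)) <<< (h + 1) := rfl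
  rw [e, Nat.testBit_shiftLeft, andNot_testBit, Nat.testBit_and, Nat.testBit_shiftRight]
  simp only [ge_iff_le, Bool.and_eq_true, decide_eq_true_eq, Bool.not_eq_true']
  constructor
  · rintro ⟨h1, ⟨h2, h3⟩, h4⟩
    rw [show h + 1 + (i - (h + 1)) = i by omega] at h3
    refine ⟨h1, h2, h3, fun j h5 h6 => ?_⟩
    rw [← Bool.not_eq_true]
    intro h7
    rw [← Bool.not_eq_true] at h4
    apply h4
    rw [near_testBit]
    refine ⟨j - (i - (h + 1)), by omega, by omega, ?_⟩
    rw [show i - (h + 1) + (j - (i - (h + 1))) = j by omega]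
    exact h7
  · rintro ⟨h1, h2, h3, h4⟩
    refine ⟨h1, ⟨h2, ?_⟩, ?_⟩
    · rw [show h + 1 + (i - (h + 1)) = i by omega]
      exact h3
    · rw [← Bool.not_eq_true, near_testBit]
      rintro ⟨j, h5, h6, h7⟩
      rw [h4 (i - (h + 1) + j) (by omega) (by omega)] at h7
      exact Bool.noConfusion h7

/-- bits `i` of `P` at which the next gap is larger than the preceding one, which is at most `H` -/
def up (P : ℕ) (H : ℕ) : ℕ :=
  Nat.rec 0 (fun h r => Nat.lor r (andNot (pre P h) (near P (Nat.succ h)))) H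

/-- bits `i` of `P` at which the next gap is at least the preceding one, which is at most `H` -/
def upe (P : ℕ) (H : ℕ) : ℕ :=
  Nat.rec 0 (fun h r => Nat.lor r (andNot (pre P h) (near P h))) H

theorem up_testBit (P H i : ℕ) :
    (up P H).testBit i = true ↔ ∃ h < H, (pre P h).testBit i = true ∧ (near P (h + 1)).testBit i = false := by
  induction H with
  | zero =>
    have e : up P 0 = 0 := rfl
    rw [e]
    simp
  | succ H ih =>
    have e : up P (H + 1) = up P H ||| (andNot (pre P H) (near P (H + 1))) := rfl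
    rw [e, Nat.testBit_or, Bool.or_eq_true, ih, andNot_testBit, Bool.and_eq_true, Bool.not_eq_true']
    constructor
    · rintro (⟨h, h1, h2⟩ | h1)
      · exact ⟨h, by omega, h2⟩
      · exact ⟨H, by omega, h1⟩
    · rintro ⟨h, h1, h2⟩
      rcases Nat.lt_or_ge h H with h4 | h4
      · exact Or.inl ⟨h, h4, h2⟩
      · obtain rfl : h = H := by omega
        exact Or.inr h2

theorem upe_testBit (P H i : ℕ) :
    (upe P H).testBit i = true ↔ ∃ h < H, (pre P h).testBit i = true ∧ (near P h).testBit i = false := by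
  induction H with
  | zero =>
    have e : upe P 0 = 0 := rfl
    rw [e]
    simp
  | succ H ih =>
    have e : upe P (H + 1) = upe P H ||| (andNot (pre P H) (near P H)) := rfl
    rw [e, Nat.testBit_or, Bool.or_eq_true, ih, andNot_testBit, Bool.and_eq_true, Bool.not_eq_true']
    constructor
    · rintro (⟨h, h1, h2⟩ | h1)
      · exact ⟨h, by omega, h2⟩
      · exact ⟨H, by omega, h1⟩
    · rintro ⟨h, h1, h2⟩
      rcases Nat.lt_or_ge h H with h4 | h4
      · exact Or.inl ⟨h, h4, h2⟩
      · obtain rfl : h = H := by omega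
        exact Or.inr h2

/-- the numerical check -/
def check (B s w m H M : ℕ) : Bool :=
  Nat.testBit (pm B s) B &&
  (Nat.beq (cnt w (rep w m) (pm B s)) M &&
  Nat.ble (Nat.succ (cnt w (rep w m) (pm B s)))
    (Nat.add (Nat.add (cnt w (rep w m) (Nat.mod (up (pm B s) H) (Nat.pow 2 B)))
      (cnt w (rep w m) (Nat.mod (upe (pm B s) H) (Nat.pow 2 B)))) 2))

end Q260.GS
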