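import Mathlib
import Pool.Agent.Q260.GS.Walk

set_option autoImplicit false

namespace Q260.GS

theorem run : check 3666581 1915 22 166700 160 261151 = true := by decide +kernel

end Q260.GS
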