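import Mathlib
import Pool.Agent.Q260.GS.Run

set_option autoImplicit false

/-! The running score of the prime gaps is positive at `n = π(3666581) - 1`. -/

namespace Q260.GS

open Finset

theorem inf : (Set.ofPred Nat.Prime).Infinite := Nat.infinite_setOfPred_prime

theorem nth_count' {i : ℕ} (hi : i.Prime) : Nat.nth Nat.Prime (Nat.count Nat.Prime i) = i :=
  Nat.nth_count hi

/-- consecutive primes have consecutive counts -/
theorem count_consec {j i : ℕ} (hj : j.Prime) (hji : j < i) (hno : ∀ l, j < l → l < i → ¬ l.Prime) :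
    Nat.count Nat.Prime i = Nat.count Nat.Prime j + 1 := by
  obtain ⟨t, rfl⟩ : ∃ t, i = j + 1 + t := ⟨i - (j + 1), by omega⟩
  clear hji
  induction t with
  | zero => rw [add_zero, Nat.count_succ, if_pos hj]
  | succ t ih =>
    rw [← add_assoc, Nat.count_succ, if_neg (hno (j + 1 + t) (by omega) (by omega)), add_zero]
    exact ih fun l h1 h2 => hno l h1 (by omega)

theorem main (B s w m H M : ℕ) (hs : B < s * s) (hB : 2 ≤ B) (hw : 1 ≤ w) (hm : m < 2 ^ w - 1) (hwm : B < w * m) (hM : 2 ≤ M)
    (hcheck : check B s w m H M = true) :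
    ∃ n : ℕ, n + 1 = M ∧ Nat.nth Nat.Prime n = B ∧
      0 < ∑ k ∈ Icc 2 n, Int.sign
        ((((Nat.nth Nat.Prime k : ℕ) : ℤ) - (Nat.nth Nat.Prime (k - 1) : ℕ)) -
          (((Nat.nth Nat.Prime (k - 1) : ℕ) : ℤ) - (Nat.nth Nat.Prime (k - 2) : ℕ))) := by
  have hP := pm_testBit hs hB
  set P := pm B s with hPdef
  have hPf : ∀ i, P.testBit i = false ↔ ¬ (i ≤ B ∧ i.Prime) := by
    intro i
    rw [← hP i, Bool.not_eq_true]
  unfold check at hcheck
  simp only [Bool.and_eq_true] at hcheck
  obtain ⟨h1, h2, h3⟩ := hcheck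
  rw [Nat.beq_eq] at h2
  have h3 := Nat.le_of_ble_eq_true h3
  rw [← hPdef, cnt_eq w m _ hw hm] at h2
  rw [← hPdef, cnt_eq w m _ hw hm, cnt_eq w m _ hw hm, cnt_eq w m _ hw hm] at h3
  have hBp : B.Prime := ((hP B).1 h1).2
  set n := Nat.count Nat.Prime B with hn
  have hpn : Nat.nth Nat.Prime n = B := nth_count' hBp
  have hcard : ((range (w * m)).filter (fun i => P.testBit i = true)).card = n + 1 := by
    have e1 : n + 1 = Nat.count Nat.Prime (B + 1) := by
      rw [Nat.count_succ, if_pos hBp]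
    rw [e1, Nat.count_eq_card_filter_range]
    congr 1
    ext i
    rw [mem_filter, mem_filter, mem_range, mem_range, hP i]
    constructor
    · rintro ⟨-, h4, h5⟩
      exact ⟨by omega, h5⟩
    · rintro ⟨h4, h5⟩
      exact ⟨by omega, by omega, h5⟩
  rw [hcard] at h2 h3
  refine ⟨n, h2, hpn, ?_⟩
  set d : ℕ → ℤ := fun k => (((Nat.nth Nat.Prime k : ℕ) : ℤ) - (Nat.nth Nat.Prime (k - 1) : ℕ)) -
          (((Nat.nth Nat.Prime (k - 1) : ℕ) : ℤ) - (Nat.nth Nat.Prime (k - 2) : ℕ)) with hd
  -- local structure at a bit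
  have loc : ∀ i h, i < B → (pre P h).testBit i = true → ∀ h', (near P h').testBit i = false →
      ∃ k, 2 ≤ k ∧ k ≤ n ∧ Nat.count Nat.Prime i + 1 = k ∧
        ((Nat.nth Nat.Prime (k - 1) : ℕ) : ℤ) - (Nat.nth Nat.Prime (k - 2) : ℕ) = h + 1 ∧
        (h' : ℤ) < ((Nat.nth Nat.Prime k : ℕ) : ℤ) - (Nat.nth Nat.Prime (k - 1) : ℕ) := by
    intro i h hiB hpre h' hnear
    rw [pre_testBit, hP, hP] at hpre
    obtain ⟨h4, ⟨-, h5⟩, ⟨-, h6⟩, h7⟩ := hpre
    have hcc : Nat.count Nat.Prime i = Nat.count Nat.Prime (i - (h + 1)) + 1 := by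
      apply count_consec h5 (by omega)
      intro l hl1 hl2 hl3
      have := h7 l hl1 hl2
      rw [hPf] at this
      exact this ⟨by omega, hl3⟩
    have hlt : Nat.count Nat.Prime i < n := Nat.count_strict_mono h6 hiB
    refine ⟨Nat.count Nat.Prime i + 1, by omega, by omega, rfl, ?_, ?_⟩
    · have e1 : Nat.count Nat.Prime i + 1 - 1 = Nat.count Nat.Prime i := by omega
      have e2 : Nat.count Nat.Prime i + 1 - 2 = Nat.count Nat.Prime (i - (h + 1)) := by omega
      rw [e1, e2, nth_count' h6, nth_count' h5, Nat.cast_sub h4]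
      push_cast
      ring
    · have e1 : Nat.count Nat.Prime i + 1 - 1 = Nat.count Nat.Prime i := by omega
      rw [e1, nth_count' h6]
      set q := Nat.nth Nat.Prime (Nat.count Nat.Prime i + 1) with hq
      have hqp : q.Prime := Nat.prime_nth_prime _
      have hiq : i < q := by
        have := (Nat.nth_strictMono inf) (Nat.lt_succ_self (Nat.count Nat.Prime i))
        rwa [nth_count' h6] at this
      have hqB : q ≤ B := by
        rw [← hpn]
        exact (Nat.nth_monotone inf) (by omega)
      have : ¬ (q ≤ i + h') := by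
        intro h8
        rw [← Bool.not_eq_true, near_testBit] at hnear
        apply hnear
        refine ⟨q - i, by omega, by omega, ?_⟩
        rw [hP, show i + (q - i) = q by omega]
        exact ⟨hqB, hqp⟩
      omega
  have hinj : ∀ S : Finset ℕ, (∀ i ∈ S, i.Prime) → Set.InjOn (fun i => Nat.count Nat.Prime i + 1) (S : Set ℕ) := by
    intro S hS i hi j hj hij
    have h4 : Nat.count Nat.Prime i = Nat.count Nat.Prime j := by
      simpa using hij
    have h5 := nth_count' (hS i hi)
    have h6 := nth_count' (hS j hj)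
    rw [← h5, ← h6, h4]
  have hup : ((range (w * m)).filter (fun i => (Nat.mod (up P H) (Nat.pow 2 B)).testBit i = true)).card ≤
      ((Icc 2 n).filter (fun k => 0 < d k)).card := by
    set S := (range (w * m)).filter (fun i => (Nat.mod (up P H) (Nat.pow 2 B)).testBit i = true) with hS
    have key : ∀ i ∈ S, i.Prime ∧ (2 ≤ Nat.count Nat.Prime i + 1 ∧ Nat.count Nat.Prime i + 1 ≤ n) ∧
        0 < d (Nat.count Nat.Prime i + 1) := by
      intro i hi
      rw [hS, mem_filter] at hi
      have h4 : ((up P H) % 2 ^ B).testBit i = true := hi.2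
      rw [Nat.testBit_mod_two_pow, Bool.and_eq_true, decide_eq_true_eq, up_testBit] at h4
      obtain ⟨hiB, h, hh, h5, h6⟩ := h4
      obtain ⟨k, hk2, hkn, rfl, h7, h8⟩ := loc i h hiB h5 (h + 1) h6
      rw [pre_testBit, hP i] at h5
      refine ⟨h5.2.2.1.2, ⟨hk2, hkn⟩, ?_⟩
      rw [hd]
      simp only
      rw [h7]
      have h9 : ((h + 1 : ℕ) : ℤ) = (h : ℤ) + 1 := by push_cast; ring
      rw [h9] at h8
      linarith
    calc S.card = (S.image (fun i => Nat.count Nat.Prime i + 1)).card :=
          (card_image_of_injOn (hinj S fun i hi => (key i hi).1)).symm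
      _ ≤ _ := by
          apply card_le_card
          intro k hk
          rw [mem_image] at hk
          obtain ⟨i, hi, rfl⟩ := hk
          rw [mem_filter, mem_Icc]
          exact ⟨(key i hi).2.1, (key i hi).2.2⟩
  have hupe : ((range (w * m)).filter (fun i => (Nat.mod (upe P H) (Nat.pow 2 B)).testBit i = true)).card ≤
      ((Icc 2 n).filter (fun k => 0 ≤ d k)).card := by
    set S := (range (w * m)).filter (fun i => (Nat.mod (upe P H) (Nat.pow 2 B)).testBit i = true) with hS
    have key : ∀ i ∈ S, i.Prime ∧ (2 ≤ Nat.count Nat.Prime i + 1 ∧ Nat.count Nat.Prime i + 1 ≤ n) ∧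
        0 ≤ d (Nat.count Nat.Prime i + 1) := by
      intro i hi
      rw [hS, mem_filter] at hi
      have h4 : ((upe P H) % 2 ^ B).testBit i = true := hi.2
      rw [Nat.testBit_mod_two_pow, Bool.and_eq_true, decide_eq_true_eq, upe_testBit] at h4
      obtain ⟨hiB, h, hh, h5, h6⟩ := h4
      obtain ⟨k, hk2, hkn, rfl, h7, h8⟩ := loc i h hiB h5 h h6
      rw [pre_testBit, hP i] at h5
      refine ⟨h5.2.2.1.2, ⟨hk2, hkn⟩, ?_⟩
      rw [hd]
      simp only
      rw [h7]
      linarith
    calc S.card = (S.image (fun i => Nat.count Nat.Prime i + 1)).card :=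
          (card_image_of_injOn (hinj S fun i hi => (key i hi).1)).symm
      _ ≤ _ := by
          apply card_le_card
          intro k hk
          rw [mem_image] at hk
          obtain ⟨i, hi, rfl⟩ := hk
          rw [mem_filter, mem_Icc]
          exact ⟨(key i hi).2.1, (key i hi).2.2⟩
  have hsum : ∑ k ∈ Icc 2 n, Int.sign (d k) =
      (((Icc 2 n).filter (fun k => 0 < d k)).card : ℤ) + ((Icc 2 n).filter (fun k => 0 ≤ d k)).card -
        (Icc 2 n).card := by
    rw [card_filter, card_filter, card_eq_sum_ones]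
    push_cast
    rw [← sum_add_distrib, ← sum_sub_distrib]
    apply sum_congr rfl
    intro k _
    rcases lt_trichotomy (d k) 0 with h | h | h
    · rw [Int.sign_eq_neg_one_of_neg h, if_neg (by omega), if_neg (by omega)]
      norm_num
    · rw [h]
      norm_num
    · rw [Int.sign_eq_one_of_pos h, if_pos h, if_pos h.le]
      norm_num
  show 0 < ∑ k ∈ Icc 2 n, Int.sign (d k)
  rw [hsum, Nat.card_Icc]
  have h3' : n + 1 + 1 ≤ ((range (w * m)).filter (fun i => (Nat.mod (up P H) (Nat.pow 2 B)).testBit i = true)).card +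
      ((range (w * m)).filter (fun i => (Nat.mod (upe P H) (Nat.pow 2 B)).testBit i = true)).card + 2 := h3
  have hn2 : 1 ≤ n := by omega
  omega

end Q260.GS
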